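import Pool.Agent.H27.L1.H52.GHK.HKW
import Pool.Agent.H27.L1.H40.GHK.GRD

/-!
Row HKW of the board ghk from the oscillating integral `T_JKG` of helper16 (cutoff `ct`).
-/

set_option autoImplicit false

namespace Pool.Agent.H27.L1.H52.GHK

open MeasureTheory Pool.Agent.H27.L1.H34.GM Pool.Agent.H27.L1.H34.GZ Pool.Agent.H27.L1.H34.GU Pool.Agent.H27.L1.H34.GA
  Pool.Agent.H27.L1.H68.GHK
open Pool.Agent.H27.L1.H69.GK (cont_ext pw_ne0 sz_cont det_cont mt_cont)
open Pool.Agent.H27.L1.H40.GHK (fsq)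

/-- the cutoff -/
noncomputable def ct (m A : ℕ) (r : ℝ) (z : V m) : ℝ :=
  if fsq (mt z - 1) < r ^ 2 then (1 - fsq (mt z - 1) / r ^ 2) ^ A else 0

/-- the oscillating integral -/
def T_JKG : Prop := ∀ m : ℕ, 1 ≤ m → ∃ r : ℝ, 0 < r ∧ r ≤ 1 / (4 * m) ∧
  ∀ (A : ℕ) (M : ℝ), ∃ C : ℝ, 0 < C ∧ ∀ mu : Fin m → ℂ, (∀ j, |(mu j).re| ≤ M) →
  Monotone (fun j => (mu j).im) → ∀ w w' : Mat m, w.det ≠ 0 → w'.det ≠ 0 →
    ‖∫ z : V m, (ct m A r z : ℂ) * ((pw mu (mt z * w) / pw mu w) *
      (starRingEnd ℂ) (pw mu (mt z * w') / pw mu w'))‖ ≤ C * ((1 + Gg mu w w') ^ A)⁻¹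

lemma fsq_nn {m : ℕ} (A : Mat m) : 0 ≤ fsq A :=
  Finset.sum_nonneg fun _ _ => Finset.sum_nonneg fun _ _ => sq_nonneg _

lemma fsq_cont {m : ℕ} : Continuous (fun z : V m => fsq (mt z - 1)) := by
  unfold Pool.Agent.H27.L1.H40.GHK.fsq
  refine continuous_finsetSum _ fun i _ => continuous_finsetSum _ fun j _ => ?_
  have h : Continuous (fun z : V m => z i j) := continuous_apply_apply i j
  exact (h.sub continuous_const).pow 2

lemma sz_lt_of_fsq {m : ℕ} {A : Mat m} {r : ℝ} (hr : 0 < r) (h : fsq A < r ^ 2) : sz A ≤ r := by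
  change ‖((fun i j => A i j) : V m)‖ ≤ r
  rw [pi_norm_le_iff_of_nonneg hr.le]
  intro i
  rw [pi_norm_le_iff_of_nonneg hr.le]
  intro j
  have h1 : A i j ^ 2 ≤ ∑ j, A i j ^ 2 :=
    Finset.single_le_sum (f := fun j => A i j ^ 2) (fun _ _ => sq_nonneg _) (Finset.mem_univ j)
  have h2 : ∑ j, A i j ^ 2 ≤ fsq A :=
    Finset.single_le_sum (f := fun i => ∑ j, A i j ^ 2)
      (fun _ _ => Finset.sum_nonneg fun _ _ => sq_nonneg _) (Finset.mem_univ i)
  rw [Real.norm_eq_abs]
  exact abs_le.mpr (abs_le_of_sq_le_sq' (by linarith) hr.le)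

lemma fsq_le {m : ℕ} {A : Mat m} {s : ℝ} (h : sz A ≤ s) : fsq A ≤ (m * s) ^ 2 := by
  have hs : 0 ≤ s := (norm_nonneg _).trans h
  have h1 : ∀ i j, A i j ^ 2 ≤ s ^ 2 := by
    intro i j
    have := (ent_le A i j).trans h
    rw [← sq_abs]
    exact pow_le_pow_left₀ (abs_nonneg _) this 2
  calc fsq A ≤ ∑ _i : Fin m, ∑ _j : Fin m, s ^ 2 :=
        Finset.sum_le_sum fun i _ => Finset.sum_le_sum fun j _ => h1 i j
    _ = (m * s) ^ 2 := by
        rw [Finset.sum_const, Finset.sum_const, Finset.card_univ, Fintype.card_fin]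
        simp only [nsmul_eq_mul]
        ring

lemma ct_eq (m A : ℕ) {r : ℝ} (hr : 0 < r) (z : V m) :
    ct m (A + 1) r z = (max 0 (1 - fsq (mt z - 1) / r ^ 2)) ^ (A + 1) := by
  unfold ct
  have hr2 : 0 < r ^ 2 := by positivity
  split_ifs with h
  · have : fsq (mt z - 1) / r ^ 2 < 1 := by rw [div_lt_one hr2]; exact h
    rw [max_eq_right (by linarith)]
  · have : 1 ≤ fsq (mt z - 1) / r ^ 2 := by rw [one_le_div hr2]; exact not_lt.mp h
    rw [max_eq_left (by linarith), zero_pow (by omega)]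

lemma ct_cont (m A : ℕ) {r : ℝ} (hr : 0 < r) : Continuous (ct m (A + 1) r) := by
  have h : ct m (A + 1) r = fun z : V m => (max 0 (1 - fsq (mt z - 1) / r ^ 2)) ^ (A + 1) :=
    funext fun z => ct_eq m A hr z
  rw [h]
  exact (continuous_const.max (continuous_const.sub (fsq_cont.div_const _))).pow _

lemma ct_nn (m A : ℕ) {r : ℝ} (hr : 0 < r) (z : V m) : 0 ≤ ct m (A + 1) r z := by
  rw [ct_eq m A hr]
  exact pow_nonneg (le_max_left _ _) _

lemma ct_lo (m A : ℕ) {r : ℝ} (hr : 0 < r) {z : V m} (h : fsq (mt z - 1) ≤ r ^ 2 / 4) :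
    (3 / 4) ^ (A + 1) ≤ ct m (A + 1) r z := by
  rw [ct_eq m A hr]
  refine pow_le_pow_left₀ (by norm_num) ?_ _
  refine le_trans ?_ (le_max_right _ _)
  have hr2 : 0 < r ^ 2 := by positivity
  have : fsq (mt z - 1) / r ^ 2 ≤ 1 / 4 := by
    rw [div_le_iff₀ hr2]
    linarith
  linarith

/-- the cutoff is a test function -/
lemma ct_tg {m : ℕ} (hm1 : 1 ≤ m) (A : ℕ) {r : ℝ} (hr : 0 < r) (hr4 : r ≤ 1 / (4 * m)) :
    Tg m (fun z : Mat m => ((ct m (A + 1) r (fun i j => z i j) : ℝ) : ℂ)) := by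
  have hs : ∀ z : V m, ct m (A + 1) r z ≠ 0 → sz (mt z - 1) ≤ r := by
    intro z hz
    by_cases h : fsq (mt z - 1) < r ^ 2
    · exact sz_lt_of_fsq hr h
    · exact absurd (if_neg h) hz
  have hm0 : (1 : ℝ) ≤ m := by exact_mod_cast hm1
  have hr1 : r ≤ 1 := by
    refine hr4.trans ?_
    rw [div_le_one (by linarith)]
    linarith
  have hBc : IsCompact {z : V m | sz (mt z - 1) ≤ r} := by
    apply Metric.isCompact_of_isClosed_isBounded
    · exact isClosed_le (sz_cont.comp (mt_cont.sub continuous_const)) continuous_const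
    · apply (Metric.isBounded_closedBall (x := ((fun i j => (1 : Mat m) i j) : V m))
        (r := r)).subset
      intro u hu
      rw [mem_closedBall_iff_norm]
      exact hu
  have hne : ({z : V m | sz (mt z - 1) ≤ r}).Nonempty := by
    refine ⟨(fun i j => (1 : Mat m) i j), ?_⟩
    change ‖((fun i j => ((1 : Mat m) - 1) i j) : V m)‖ ≤ r
    rw [sub_self]
    change ‖(0 : V m)‖ ≤ r
    rw [norm_zero]
    exact hr.le
  obtain ⟨z0, hz0, hmin⟩ := hBc.exists_isMinOn hne
    ((det_cont.comp mt_cont).abs.continuousOn)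
  have hd0 : 0 < |(mt z0).det| := abs_pos.mpr (det_near hm1 (le_trans hz0 hr4))
  refine ⟨?_, max 2 (|(mt z0).det|)⁻¹, lt_of_lt_of_le two_pos (le_max_left _ _), ?_⟩
  · exact Complex.continuous_ofReal.comp (ct_cont m A hr)
  · intro z hz
    have h1 := hs (fun i j => z i j) (Complex.ofReal_ne_zero.mp hz)
    constructor
    · refine le_trans ?_ (le_max_left _ _)
      have h2 : sz z ≤ sz (z - 1) + sz (1 : Mat m) := by
        have : ((fun i j => z i j) : V m) = (fun i j => (z - 1) i j) + fun i j => (1 : Mat m) i j := by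
          funext i j
          simp
        change ‖((fun i j => z i j) : V m)‖ ≤ _
        rw [this]
        exact norm_add_le _ _
      have h3 : sz (1 : Mat m) ≤ 1 := by
        change ‖((fun i j => (1 : Mat m) i j) : V m)‖ ≤ 1
        rw [pi_norm_le_iff_of_nonneg zero_le_one]
        intro i
        rw [pi_norm_le_iff_of_nonneg zero_le_one]
        intro j
        rw [Matrix.one_apply]
        split_ifs <;> simp
      have h4 : sz (z - 1) ≤ r := h1
      linarith
    · have h2 : |(mt z0).det| ≤ |z.det| := hmin (a := (fun i j => z i j)) h1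
      have h3 : (max 2 (|(mt z0).det|)⁻¹)⁻¹ ≤ |(mt z0).det| := by
        rw [inv_le_comm₀ (lt_of_lt_of_le two_pos (le_max_left _ _)) hd0]
        exact le_max_right _ _
      exact h3.trans h2

lemma bt_nn {m : ℕ} {mu : Fin m → ℂ} (h : Monotone (fun j => (mu j).im)) (j : ℕ) :
    0 ≤ bt mu j := by
  unfold Pool.Agent.H27.L1.H68.GHK.bt
  split_ifs with hj
  · have := h (show (⟨j - 1, by omega⟩ : Fin m) ≤ ⟨j, hj.2⟩ by
      rw [Fin.mk_le_mk]
      omega)
    simp only at this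
    linarith
  · exact le_rfl

lemma Gg_nn {m : ℕ} {mu : Fin m → ℂ} (h : Monotone (fun j => (mu j).im)) (w w' : Mat m) :
    0 ≤ Gg mu w w' :=
  Finset.sum_nonneg fun j _ => mul_nonneg (bt_nn h j) (norm_nonneg _)

theorem pf_HKG (hIPT : T_IPT) (hPHK : T_PHK) (hKAP : T_KAP) (hJKG : T_JKG) (hVOK : T_VOK) :
    T_HKW := by
  intro m hm1
  obtain ⟨ρ, hρ, hρ4, hJ⟩ := hJKG m hm1
  obtain ⟨κ, hκ⟩ := hKAP m hm1
  obtain ⟨A, C1, hC1, hV⟩ := hVOK m κ hm1 hκ
  have hm0 : (0 : ℝ) < m := by exact_mod_cast hm1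
  have hr : 0 < ρ / (2 * m) := by positivity
  have hc0 : (0 : ℝ) < (3 / 4) ^ (A + 1) := by positivity
  refine ⟨ρ / (2 * m), hr, fun M => ?_⟩
  obtain ⟨C2, hC2, hJ⟩ := hJ (A + 1) M
  refine ⟨C2 * C1 / (3 / 4) ^ (A + 1), by positivity, ?_⟩
  intro N _ T D hS F lam mu hF hn hM hmono
  have hH : HecA m N T F lam := heca hF
  have hdet : ∀ u ∈ Bn m (ρ / (2 * m)), (mt u).det ≠ 0 := by
    intro u hu
    refine det_near hm1 (le_trans (le_trans hu ?_) hρ4)
    rw [div_le_iff₀ (by positivity)]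
    have : (1 : ℝ) ≤ m := by exact_mod_cast hm1
    nlinarith
  have hb1 : ∀ u ∈ Bn m (ρ / (2 * m)), (3 / 4) ^ (A + 1) ≤ ct m (A + 1) ρ u := by
    intro u hu
    refine ct_lo m A hρ ((fsq_le hu).trans (le_of_eq ?_))
    field_simp
    ring
  -- the matrix coefficient
  have hip : ∀ u : Mat m, u.det ≠ 0 → ‖ip D (rt u F) F‖ = ‖ph κ mu u‖ := by
    intro u hu
    have hui : (u⁻¹).det ≠ 0 := by
      rw [Matrix.det_nonsing_inv, Ring.inverse_eq_inv']
      exact inv_ne_zero hu
    have h1 := hPHK m κ hm1 hκ N T D hS F lam mu hF hn u hu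
    have h2 := (hIPT m N T D hS F F lam lam hH hH).1
    have h3 := (hIPT m N T D hS (rt u F) F lam lam (h2 u hu).1 hH).1 u⁻¹ hui
    have h4 : ip D F (rt u⁻¹ F) = ip D (rt u F) F := by
      have := h3.2.2
      rwa [rt_inv hu] at this
    have h5 := (hIPT m N T D hS F (rt u⁻¹ F) lam lam hH (h2 u⁻¹ hui).1).2.2.2.1
    rw [← h4]
    have h6 : ‖ip D (rt u⁻¹ F) F‖ = ‖ip D F (rt u⁻¹ F)‖ := by
      rw [h5, Complex.norm_conj]
    rw [← h6, h1]
    rfl
  have hcont : ContinuousOn (fun u : V m => ip D (rt (mt u) F) F) {u | (mt u).det ≠ 0} := by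
    have h1 := (hIPT m N T D hS F F lam lam hH hH).2.2.2.2
    have h2 := h1.comp (f := fun u : V m => ((u, (fun i j => (1 : Mat m) i j)) : V m × V m))
      (s := {u | (mt u).det ≠ 0}) (by fun_prop) (fun u hu => ⟨hu, by
        change (1 : Mat m).det ≠ 0
        rw [Matrix.det_one]
        exact one_ne_zero⟩)
    refine h2.congr fun u _ => ?_
    change ip D (rt (mt u) F) F = ip D (rt (mt u) F) (rt (1 : Mat m) F)
    rw [rt_one]
  have hBc : IsCompact (Bn m (ρ / (2 * m))) := by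
    apply Metric.isCompact_of_isClosed_isBounded
    · exact isClosed_le (sz_cont.comp (mt_cont.sub continuous_const)) continuous_const
    · apply (Metric.isBounded_closedBall (x := ((fun i j => (1 : Mat m) i j) : V m))
        (r := ρ / (2 * m))).subset
      intro u hu
      rw [mem_closedBall_iff_norm]
      exact hu
  have hBint : IntegrableOn (fun u : V m => ‖ip D (rt (mt u) F) F‖ ^ 2) (Bn m (ρ / (2 * m))) := by
    refine ContinuousOn.integrableOn_compact hBc ?_
    exact ((hcont.mono fun u hu => hdet u hu).norm).pow 2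
  obtain ⟨g1, g2⟩ := mean_le hm1 mu
    (b := fun z : Mat m => ((ct m (A + 1) ρ (fun i j => z i j) : ℝ) : ℂ))
    (ct_tg hm1 A hρ hρ4)
    (fun z => by
      rw [Complex.norm_real, Real.norm_eq_abs, abs_of_nonneg (ct_nn m A hρ _)]) hκ (A := A) hC1 hC2
    (fun w w' hw hw' => by
      refine le_trans (hJ mu hM hmono w w' hw hw') ?_
      have hG := Gg_nn hmono w w'
      have h1 : (1 + Gg mu w w') ^ A ≤ (1 + Gg mu w w') ^ (A + 1) :=
        pow_le_pow_right₀ (by linarith) (by omega)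
      have h2 : 0 < (1 + Gg mu w w') ^ A := by positivity
      exact mul_le_mul_of_nonneg_left (inv_anti₀ h2 h1) hC2.le) (fun w hw => hV mu hmono w hw)
  have hbn : ∀ u : V m, ‖((ct m (A + 1) ρ (fun i j => (mt u) i j) : ℝ) : ℂ)‖ =
      ct m (A + 1) ρ u := by
    intro u
    rw [Complex.norm_real, Real.norm_eq_abs]
    exact abs_of_nonneg (ct_nn m A hρ u)
  simp only [hbn] at g1 g2
  constructor
  · rw [div_right_comm (C2 * C1), le_div_iff₀ hc0]
    refine le_trans ?_ g2
    unfold Hn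
    rw [← integral_mul_const]
    refine le_trans ?_ (setIntegral_le_integral (s := Bn m (ρ / (2 * m))) g1
      (Filter.Eventually.of_forall fun u => mul_nonneg (ct_nn m A hρ u) (by positivity)))
    refine setIntegral_mono_on (hBint.mul_const _) g1.integrableOn hBc.isClosed.measurableSet
      fun u hu => ?_
    rw [hip _ (hdet u hu), mul_comm]
    exact mul_le_mul_of_nonneg_right (hb1 u hu) (by positivity)
  · unfold Hn
    rw [setIntegral_pos_iff_support_of_nonneg_ae
      (Filter.Eventually.of_forall fun u => by positivity) hBint]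
    have hop : IsOpen {u : V m | (mt u).det ≠ 0} := isOpen_ne.preimage (det_cont.comp mt_cont)
    have h1d : ((fun i j => (1 : Mat m) i j) : V m) ∈ {u : V m | (mt u).det ≠ 0} := by
      change (1 : Mat m).det ≠ 0
      rw [Matrix.det_one]
      exact one_ne_zero
    have h2 := hcont.continuousAt (hop.mem_nhds h1d)
    have h3 : ip D (rt (mt ((fun i j => (1 : Mat m) i j) : V m)) F) F ≠ 0 := by
      change ip D (rt (1 : Mat m) F) F ≠ 0
      rw [rt_one, (hIPT m N T D hS F F lam lam hH hH).2.2.1, hn]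
      norm_num
    have h4 := h2.eventually_ne h3
    have h5 : Bn m (ρ / (2 * m)) ∈ nhds ((fun i j => (1 : Mat m) i j) : V m) := by
      refine Filter.mem_of_superset (Metric.ball_mem_nhds _ hr) fun u hu => ?_
      rw [mem_ball_iff_norm] at hu
      exact hu.le
    refine Measure.measure_pos_of_mem_nhds volume (x := ((fun i j => (1 : Mat m) i j) : V m)) ?_
    filter_upwards [h4, h5] with u hu1 hu2
    refine ⟨?_, hu2⟩
    rw [Function.mem_support]
    exact pow_ne_zero 2 (norm_ne_zero_iff.mpr hu1)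

end Pool.Agent.H27.L1.H52.GHK
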