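import Pool.Agent.H27.L1.H68.GHK.Targets
import Pool.Agent.H27.L1.H34.GM.PRF
import Pool.Agent.H27.L1.H34.GM.PWC
import Pool.Agent.H27.L1.H69.GK.PHK

/-!
Row HKW of the board ghk: the mean of the square of the matrix coefficient of a spherical form near
the unit matrix is at most a constant over the Plancherel density.
-/

set_option autoImplicit false

namespace Pool.Agent.H27.L1.H52.GHK

open MeasureTheory Pool.Agent.H27.L1.H34.GM Pool.Agent.H27.L1.H34.GZ Pool.Agent.H27.L1.H34.GU Pool.Agent.H27.L1.H34.GA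
  Pool.Agent.H27.L1.H68.GHK
open Pool.Agent.H27.L1.H69.GK (cont_ext pw_ne0 sz_cont det_cont mt_cont)

lemma ent_le {m : ℕ} (A : Mat m) (i j : Fin m) : |A i j| ≤ sz A := by
  have h1 : ‖((fun i j => A i j) : V m) i j‖ ≤ ‖((fun i j => A i j) : V m) i‖ :=
    norm_le_pi_norm (((fun i j => A i j) : V m) i) j
  have h2 : ‖((fun i j => A i j) : V m) i‖ ≤ ‖((fun i j => A i j) : V m)‖ :=
    norm_le_pi_norm ((fun i j => A i j) : V m) i
  exact h1.trans h2

lemma det_near {m : ℕ} (hm : 1 ≤ m) {A : Mat m} (h : sz (A - 1) ≤ 1 / (4 * m)) :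
    A.det ≠ 0 := by
  have hm0 : (0 : ℝ) < m := by exact_mod_cast hm
  have hq : (1 : ℝ) / (4 * m) ≤ 1 / 4 := by
    apply one_div_le_one_div_of_le (by norm_num)
    have : (1 : ℝ) ≤ m := by exact_mod_cast hm
    linarith
  have he : ∀ i j, |(A - 1) i j| ≤ 1 / (4 * m) := fun i j => (ent_le _ i j).trans h
  refine det_ne_zero_of_sum_row_lt_diag fun k => ?_
  have h1 : ∑ j ∈ Finset.univ.erase k, ‖A k j‖ ≤
      ∑ j ∈ Finset.univ.erase k, (1 : ℝ) / (4 * m) := by
    refine Finset.sum_le_sum fun j hj => ?_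
    have hjk : j ≠ k := Finset.ne_of_mem_erase hj
    have := he k j
    rw [Matrix.sub_apply, Matrix.one_apply_ne hjk.symm, sub_zero] at this
    exact this
  have h2 : ∑ j ∈ Finset.univ.erase k, (1 : ℝ) / (4 * m) ≤ 1 / 4 := by
    rw [Finset.sum_const, nsmul_eq_mul]
    have h3 : ((Finset.univ.erase k).card : ℝ) ≤ m := by
      have := Finset.card_le_card (Finset.erase_subset k Finset.univ)
      rw [Finset.card_univ, Fintype.card_fin] at this
      exact_mod_cast this
    calc ((Finset.univ.erase k).card : ℝ) * (1 / (4 * m)) ≤ m * (1 / (4 * m)) :=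
          mul_le_mul_of_nonneg_right h3 (by positivity)
      _ = 1 / 4 := by field_simp
  have h4 := he k k
  rw [Matrix.sub_apply, Matrix.one_apply_eq] at h4
  have h5 : 3 / 4 ≤ ‖A k k‖ := by
    rw [Real.norm_eq_abs]
    have h6 := (abs_le.mp (h4.trans hq)).1
    exact le_trans (by linarith) (le_abs_self _)
  linarith

/-- the support of the densities -/
def KK (m : ℕ) : Set (V m) := {w | sz ((mt w).transpose * mt w - 1) ≤ 1 / (4 * m)}

lemma KK_compact {m : ℕ} (hm : 1 ≤ m) : IsCompact (KK m) := by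
  have hm0 : (0 : ℝ) < m := by exact_mod_cast hm
  have hq : (1 : ℝ) / (4 * m) ≤ 1 / 4 := by
    apply one_div_le_one_div_of_le (by norm_num)
    have : (1 : ℝ) ≤ m := by exact_mod_cast hm
    linarith
  apply Metric.isCompact_of_isClosed_isBounded
  · refine isClosed_le (sz_cont.comp ?_) continuous_const
    exact (mt_cont.matrix_transpose.matrix_mul mt_cont).sub continuous_const
  · apply (Metric.isBounded_closedBall (x := (0 : V m)) (r := 2)).subset
    intro w hw
    rw [mem_closedBall_zero_iff, pi_norm_le_iff_of_nonneg (by norm_num)]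
    intro i
    rw [pi_norm_le_iff_of_nonneg (by norm_num)]
    intro j
    have h1 := (ent_le _ j j).trans hw
    rw [Matrix.sub_apply, Matrix.one_apply_eq, Matrix.mul_apply] at h1
    have h2 := (abs_le.mp (h1.trans hq)).2
    have h3 : w i j * w i j ≤ ∑ k, (mt w).transpose j k * mt w k j :=
      Finset.single_le_sum (f := fun k => (mt w).transpose j k * mt w k j)
        (fun k _ => mul_self_nonneg (w k j)) (Finset.mem_univ i)
    rw [Real.norm_eq_abs]
    refine abs_le_of_sq_le_sq' ?_ (by norm_num) |> fun h => abs_le.mpr h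
    nlinarith

lemma KK_det {m : ℕ} (hm : 1 ≤ m) {w : V m} (hw : w ∈ KK m) : (mt w).det ≠ 0 := by
  have h := det_near hm hw
  rw [Matrix.det_mul] at h
  exact right_ne_zero_of_mul h

lemma Wt_pos {m : ℕ} (mu : Fin m → ℂ) : 0 < Wt mu := by
  unfold Wt
  refine Finset.prod_pos fun i _ => Finset.prod_pos fun j _ => ?_
  split_ifs
  · positivity
  · norm_num

lemma heca {m N : ℕ} [NeZero N] {T : ℕ → Finset (ZM m)} {F : Mat m → VN m N → ℂ}
    {lam : ℕ → ℂ} {mu : Fin m → ℂ} (h : CuspU m N T F lam mu) : HecA m N T F lam :=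
  ⟨h.cont, h.supp, h.auto, h.scal, h.hecke, h.bdd⟩

lemma rt_inv {m N : ℕ} {u : Mat m} (hu : u.det ≠ 0) (F : Mat m → VN m N → ℂ) :
    rt u⁻¹ (rt u F) = F := by
  funext g x
  change F (g * u⁻¹ * u) x = F g x
  rw [Matrix.mul_assoc, Matrix.nonsing_inv_mul u (isUnit_iff_ne_zero.mpr hu), Matrix.mul_one]

lemma rt_one {m N : ℕ} (F : Mat m → VN m N → ℂ) : rt 1 F = F := by
  funext g x
  change F (g * 1) x = F g x
  rw [Matrix.mul_one]

/-- the average of the quotients -/
noncomputable def ph {m : ℕ} (κ : Mat m → ℝ) (mu : Fin m → ℂ) (z : Mat m) : ℂ :=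
  ∫ w : V m, (κ (mt w) : ℂ) * (pw mu (z * mt w) / pw mu (mt w))

/-- the integrand of the mean square -/
noncomputable def ff {m : ℕ} (b : Mat m → ℂ) (κ : Mat m → ℝ) (mu : Fin m → ℂ)
    (u : V m) (p : V m × V m) : ℂ :=
  b (mt u) * (((κ (mt p.1) : ℂ) * (pw mu (mt u * mt p.1) / pw mu (mt p.1))) *
    (starRingEnd ℂ) ((κ (mt p.2) : ℂ) * (pw mu (mt u * mt p.2) / pw mu (mt p.2))))

lemma quo1 {m : ℕ} (hm1 : 1 ≤ m) (mu : Fin m → ℂ) :
    ContinuousOn (fun p : V m × V m => pw mu (mt p.1 * mt p.2) / pw mu (mt p.2))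
      ({u | (mt u).det ≠ 0} ×ˢ {w | (mt w).det ≠ 0}) := by
  have h := Pool.Agent.H27.L1.H69.GK.quo_cont pf_PWC hm1 mu
  exact h.comp (f := fun p : V m × V m => ((mt p.1, p.2) : Mat m × V m))
    (((mt_cont.comp continuous_fst).prodMk continuous_snd).continuousOn) (fun p hp => hp)

lemma ff_int {m : ℕ} (hm1 : 1 ≤ m) {b : Mat m → ℂ} {κ : Mat m → ℝ} (mu : Fin m → ℂ)
    (hb : Tg m b) (hκ : Kap m κ) :
    Integrable (Function.uncurry (ff b κ mu)) (volume.prod (volume : Measure (V m × V m))) := by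
  obtain ⟨c, hc, hs⟩ := hb.supp
  have hdc : Continuous (fun z : V m => (mt z).det) := det_cont.comp mt_cont
  have hcon : Continuous (fun q : V m × (V m × V m) =>
      (b (mt q.1) * ((κ (mt q.2.1) : ℂ) * (κ (mt q.2.2) : ℂ))) *
        ((pw mu (mt q.1 * mt q.2.1) / pw mu (mt q.2.1)) *
          (starRingEnd ℂ) (pw mu (mt q.1 * mt q.2.2) / pw mu (mt q.2.2)))) := by
    have hU : IsOpen (({z : V m | (mt z).det ≠ 0}) ×ˢ
        (({z : V m | (mt z).det ≠ 0}) ×ˢ ({z : V m | (mt z).det ≠ 0}))) :=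
      (isOpen_ne.preimage hdc).prod ((isOpen_ne.preimage hdc).prod (isOpen_ne.preimage hdc))
    have hZ : IsClosed ((Pool.Agent.H27.L1.H69.GK.RR m c) ×ˢ ((KK m) ×ˢ (KK m))) :=
      (Pool.Agent.H27.L1.H69.GK.RR_compact m c).isClosed.prod
        ((KK_compact hm1).isClosed.prod (KK_compact hm1).isClosed)
    refine cont_ext hU hZ ?_ ?_ ?_ ?_
    · intro q hq
      exact ⟨Pool.Agent.H27.L1.H69.GK.RR_det hc hq.1, KK_det hm1 hq.2.1, KK_det hm1 hq.2.2⟩
    · refine ContinuousOn.mul ?_ (Complex.continuous_conj.comp_continuousOn ?_)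
      · exact (quo1 hm1 mu).comp
          (f := fun q : V m × (V m × V m) => ((q.1, q.2.1) : V m × V m))
          (by fun_prop) (fun q hq => ⟨hq.1, hq.2.1⟩)
      · exact (quo1 hm1 mu).comp
          (f := fun q : V m × (V m × V m) => ((q.1, q.2.2) : V m × V m))
          (by fun_prop) (fun q hq => ⟨hq.1, hq.2.2⟩)
    · have h1 : Continuous (fun q : V m × (V m × V m) => b (mt q.1)) :=
        hb.cont.comp (mt_cont.comp continuous_fst)
      have h2 : Continuous (fun q : V m × (V m × V m) => (κ (mt q.2.1) : ℂ)) :=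
        Complex.continuous_ofReal.comp (hκ.cont.comp (continuous_fst.comp continuous_snd))
      have h3 : Continuous (fun q : V m × (V m × V m) => (κ (mt q.2.2) : ℂ)) :=
        Complex.continuous_ofReal.comp (hκ.cont.comp (continuous_snd.comp continuous_snd))
      exact h1.mul (h2.mul h3)
    · intro q hq
      have h1 := left_ne_zero_of_mul hq
      have h2 := left_ne_zero_of_mul (right_ne_zero_of_mul hq)
      have h3 := right_ne_zero_of_mul (right_ne_zero_of_mul hq)
      exact ⟨hs _ h1, hκ.supp _ (Complex.ofReal_ne_zero.mp h2),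
        hκ.supp _ (Complex.ofReal_ne_zero.mp h3)⟩
  have heq : Function.uncurry (ff b κ mu) = (fun q : V m × (V m × V m) =>
      (b (mt q.1) * ((κ (mt q.2.1) : ℂ) * (κ (mt q.2.2) : ℂ))) *
        ((pw mu (mt q.1 * mt q.2.1) / pw mu (mt q.2.1)) *
          (starRingEnd ℂ) (pw mu (mt q.1 * mt q.2.2) / pw mu (mt q.2.2)))) := by
    funext q
    change ff b κ mu q.1 q.2 = _
    unfold ff
    rw [map_mul, Complex.conj_ofReal]
    ring
  rw [heq]
  have i2 : IsFiniteMeasureOnCompacts (volume : Measure (V m × V m)) :=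
    Measure.prod.instIsFiniteMeasureOnCompacts _ _
  have i3 : IsFiniteMeasureOnCompacts
      ((volume : Measure (V m)).prod (volume : Measure (V m × V m))) :=
    Measure.prod.instIsFiniteMeasureOnCompacts _ _
  refine Continuous.integrable_of_hasCompactSupport hcon ?_
  refine HasCompactSupport.intro ((Pool.Agent.H27.L1.H69.GK.RR_compact m c).prod
    ((KK_compact hm1).prod (KK_compact hm1))) fun q hq => ?_
  by_contra hcon
  apply hq
  have h0 := left_ne_zero_of_mul hcon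
  have h1 := left_ne_zero_of_mul h0
  have h2 := left_ne_zero_of_mul (right_ne_zero_of_mul h0)
  have h3 := right_ne_zero_of_mul (right_ne_zero_of_mul h0)
  exact ⟨hs _ h1, hκ.supp _ (Complex.ofReal_ne_zero.mp h2),
    hκ.supp _ (Complex.ofReal_ne_zero.mp h3)⟩

lemma ff_in {m : ℕ} (b : Mat m → ℂ) (κ : Mat m → ℝ) (mu : Fin m → ℂ) (u : V m) :
    ∫ p : V m × V m, ff b κ mu u p =
      b (mt u) * (ph κ mu (mt u) * (starRingEnd ℂ) (ph κ mu (mt u))) := by
  unfold ff ph
  rw [integral_const_mul]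
  congr 1
  rw [← integral_conj]
  exact integral_prod_mul (μ := (volume : Measure (V m))) (ν := (volume : Measure (V m)))
    (fun w : V m => (κ (mt w) : ℂ) * (pw mu (mt u * mt w) / pw mu (mt w)))
    (fun w : V m => (starRingEnd ℂ) ((κ (mt w) : ℂ) * (pw mu (mt u * mt w) / pw mu (mt w))))

/-- the mean square is at most the double integral of the oscillating integrals -/
lemma mean_le {m : ℕ} (hm1 : 1 ≤ m) {b : Mat m → ℂ} {κ : Mat m → ℝ} (mu : Fin m → ℂ)
    (hb : Tg m b) (hbn : ∀ z, b z = (‖b z‖ : ℂ)) (hκ : Kap m κ) {A : ℕ} {C1 C2 : ℝ}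
    (hC1 : 0 < C1) (hC2 : 0 < C2)
    (hJ : ∀ w w' : Mat m, w.det ≠ 0 → w'.det ≠ 0 →
      ‖∫ z : V m, b (mt z) * ((pw mu (mt z * w) / pw mu w) *
        (starRingEnd ℂ) (pw mu (mt z * w') / pw mu w'))‖ ≤ C2 * ((1 + Gg mu w w') ^ A)⁻¹)
    (hV : ∀ w : Mat m, w.det ≠ 0 →
      ∫⁻ w' : V m, ENNReal.ofReal (κ (mt w') * ((1 + Gg mu w (mt w')) ^ A)⁻¹) ≤
        ENNReal.ofReal (C1 / Wt mu)) :
    Integrable (fun u : V m => ‖b (mt u)‖ * ‖ph κ mu (mt u)‖ ^ 2) ∧
    ∫ u : V m, ‖b (mt u)‖ * ‖ph κ mu (mt u)‖ ^ 2 ≤ C2 * C1 / Wt mu := by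
  have hW := Wt_pos mu
  have hint := ff_int hm1 mu hb hκ
  have hpt : ∀ u : V m, ∫ p : V m × V m, ff b κ mu u p =
      ((‖b (mt u)‖ * ‖ph κ mu (mt u)‖ ^ 2 : ℝ) : ℂ) := by
    intro u
    rw [ff_in, Complex.mul_conj, Complex.normSq_eq_norm_sq, hbn (mt u)]
    push_cast
    rw [Complex.norm_real, norm_norm]
  have h1 : Integrable (fun u : V m => ((‖b (mt u)‖ * ‖ph κ mu (mt u)‖ ^ 2 : ℝ) : ℂ)) := by
    refine hint.integral_prod_left.congr (Filter.Eventually.of_forall fun u => ?_)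
    exact hpt u
  have h1' : Integrable (fun u : V m => ‖b (mt u)‖ * ‖ph κ mu (mt u)‖ ^ 2) := by
    have := h1.re
    exact this
  refine ⟨h1', ?_⟩
  have hn : 0 ≤ C2 * C1 / Wt mu := by positivity
  rw [← ENNReal.ofReal_le_ofReal_iff hn]
  have h2 : ∫ u : V m, ‖b (mt u)‖ * ‖ph κ mu (mt u)‖ ^ 2 ≤
      ‖∫ p : V m × V m, ∫ u : V m, ff b κ mu u p‖ := by
    rw [← integral_integral_swap hint]
    have h3 : ∫ u : V m, ∫ p : V m × V m, ff b κ mu u p =
        ((∫ u : V m, ‖b (mt u)‖ * ‖ph κ mu (mt u)‖ ^ 2 : ℝ) : ℂ) := by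
      rw [← integral_complex_ofReal]
      exact integral_congr_ae (Filter.Eventually.of_forall fun u => hpt u)
    rw [h3, Complex.norm_real]
    exact le_abs_self _
  -- the inner integral
  have h4 : ∀ w w' : V m, ‖∫ u : V m, ff b κ mu u (w, w')‖ ≤
      κ (mt w) * (C2 * (κ (mt w') * ((1 + Gg mu (mt w) (mt w')) ^ A)⁻¹)) := by
    intro w w'
    have h5 : ∫ u : V m, ff b κ mu u (w, w') = ((κ (mt w) : ℂ) * (κ (mt w') : ℂ)) *
        ∫ z : V m, b (mt z) * ((pw mu (mt z * mt w) / pw mu (mt w)) *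
        (starRingEnd ℂ) (pw mu (mt z * mt w') / pw mu (mt w'))) := by
      rw [← integral_const_mul]
      refine integral_congr_ae (Filter.Eventually.of_forall fun u => ?_)
      change ff b κ mu u (w, w') = _
      unfold ff
      rw [map_mul, Complex.conj_ofReal]
      ring
    have k0 := hκ.nn (mt w)
    have k1 := hκ.nn (mt w')
    by_cases hw : κ (mt w) = 0
    · rw [h5, hw]
      simp
    by_cases hw' : κ (mt w') = 0
    · rw [h5, hw']
      simp
    have hd : (mt w).det ≠ 0 := KK_det hm1 (hκ.supp _ hw)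
    have hd' : (mt w').det ≠ 0 := KK_det hm1 (hκ.supp _ hw')
    rw [h5, norm_mul, norm_mul, Complex.norm_real, Complex.norm_real, Real.norm_eq_abs,
      Real.norm_eq_abs, abs_of_nonneg k0, abs_of_nonneg k1]
    calc κ (mt w) * κ (mt w') * _ ≤ κ (mt w) * κ (mt w') *
          (C2 * ((1 + Gg mu (mt w) (mt w')) ^ A)⁻¹) :=
          mul_le_mul_of_nonneg_left (hJ _ _ hd hd') (mul_nonneg k0 k1)
      _ = _ := by ring
  calc ENNReal.ofReal (∫ u : V m, ‖b (mt u)‖ * ‖ph κ mu (mt u)‖ ^ 2)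
      ≤ ENNReal.ofReal ‖∫ p : V m × V m, ∫ u : V m, ff b κ mu u p‖ :=
        ENNReal.ofReal_le_ofReal h2
    _ = ‖∫ p : V m × V m, ∫ u : V m, ff b κ mu u p‖ₑ := ofReal_norm_eq_enorm _
    _ ≤ ∫⁻ p : V m × V m, ‖∫ u : V m, ff b κ mu u p‖ₑ := enorm_integral_le_lintegral_enorm _
    _ ≤ ∫⁻ w : V m, ∫⁻ w' : V m, ‖∫ u : V m, ff b κ mu u (w, w')‖ₑ := by
        exact lintegral_prod_le (μ := (volume : Measure (V m))) (ν := (volume : Measure (V m)))
          (fun p : V m × V m => ‖∫ u : V m, ff b κ mu u p‖ₑ)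
    _ ≤ ∫⁻ w : V m, ENNReal.ofReal (κ (mt w)) * ENNReal.ofReal (C2 * (C1 / Wt mu)) := by
        refine lintegral_mono fun w => ?_
        change ∫⁻ w' : V m, ‖∫ u : V m, ff b κ mu u (w, w')‖ₑ ≤
          ENNReal.ofReal (κ (mt w)) * ENNReal.ofReal (C2 * (C1 / Wt mu))
        by_cases hw : κ (mt w) = 0
        · have h6 : ∀ w' : V m, ‖∫ u : V m, ff b κ mu u (w, w')‖ₑ = 0 := by
            intro w'
            have := h4 w w'
            rw [hw, zero_mul] at this
            rw [enorm_eq_zero, ← norm_eq_zero]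
            exact le_antisymm this (norm_nonneg _)
          simp only [h6, lintegral_zero]
          exact bot_le
        have hd : (mt w).det ≠ 0 := KK_det hm1 (hκ.supp _ hw)
        calc ∫⁻ w' : V m, ‖∫ u : V m, ff b κ mu u (w, w')‖ₑ
            ≤ ∫⁻ w' : V m, ENNReal.ofReal (κ (mt w)) * (ENNReal.ofReal C2 *
                ENNReal.ofReal (κ (mt w') * ((1 + Gg mu (mt w) (mt w')) ^ A)⁻¹)) := by
              refine lintegral_mono fun w' => ?_
              change ‖∫ u : V m, ff b κ mu u (w, w')‖ₑ ≤ _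
              rw [← ofReal_norm_eq_enorm]
              refine (ENNReal.ofReal_le_ofReal (h4 w w')).trans ?_
              rw [ENNReal.ofReal_mul (hκ.nn _), ENNReal.ofReal_mul hC2.le]
          _ = ENNReal.ofReal (κ (mt w)) * (ENNReal.ofReal C2 * ∫⁻ w' : V m,
                ENNReal.ofReal (κ (mt w') * ((1 + Gg mu (mt w) (mt w')) ^ A)⁻¹)) := by
              rw [lintegral_const_mul' _ _ ENNReal.ofReal_ne_top,
                lintegral_const_mul' _ _ ENNReal.ofReal_ne_top]
          _ ≤ ENNReal.ofReal (κ (mt w)) * (ENNReal.ofReal C2 *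
                ENNReal.ofReal (C1 / Wt mu)) := by
              gcongr
              exact hV _ hd
          _ = _ := by rw [ENNReal.ofReal_mul hC2.le]
    _ = ENNReal.ofReal (C2 * C1 / Wt mu) := by
        rw [lintegral_mul_const' _ _ ENNReal.ofReal_ne_top]
        have hk : ∫⁻ w : V m, ENNReal.ofReal (κ (mt w)) = 1 := by
          have hki : Integrable (fun w : V m => κ (mt w)) := by
            by_contra hcon
            have := hκ.one
            rw [integral_undef hcon] at this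
            norm_num at this
          rw [← ofReal_integral_eq_lintegral_ofReal hki
            (Filter.Eventually.of_forall fun w => hκ.nn _), hκ.one, ENNReal.ofReal_one]
        rw [hk, one_mul, mul_div_assoc]

theorem pf_HKW (hIPT : T_IPT) (hPHK : T_PHK) (hKAP : T_KAP) (hJKF : T_JKF) (hVOK : T_VOK)
    (hBIA : T_BIA) : T_HKW := by
  intro m hm1
  obtain ⟨χ, hχ⟩ := pf_PRF
  obtain ⟨ρ, hρ, hρ2, hJ⟩ := hJKF m χ hm1 hχ
  obtain ⟨κ, hκ⟩ := hKAP m hm1
  obtain ⟨A, C1, hC1, hV⟩ := hVOK m κ hm1 hκ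
  obtain ⟨C0, hC0, hB⟩ := hBIA m χ hm1 hχ
  obtain ⟨hT, hB⟩ := hB ρ hρ hρ2
  have hm0 : (0 : ℝ) < m := by exact_mod_cast hm1
  have hr : 0 < ρ / (2 * m) := by positivity
  refine ⟨ρ / (2 * m), hr, fun M => ?_⟩
  obtain ⟨C2, hC2, hJ⟩ := hJ A M
  refine ⟨C2 * C1, mul_pos hC2 hC1, ?_⟩
  intro N _ T D hS F lam mu hF hn hM hmono
  have hH : HecA m N T F lam := heca hF
  have hb1 : ∀ u ∈ Bn m (ρ / (2 * m)), bi m χ ρ (mt u) = 1 := fun u hu => (hB (mt u)).2.2.2 hu
  have hdet : ∀ u ∈ Bn m (ρ / (2 * m)), (mt u).det ≠ 0 := by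
    intro u hu h0
    have h1 := hb1 u hu
    have h2 := ((hB (mt u)).2.2.1 (by rw [h1]; exact one_ne_zero)).2.1
    rw [h0, abs_zero] at h2
    have : 0 < C0⁻¹ := inv_pos.mpr (by linarith)
    linarith
  -- the matrix coefficient
  have hip : ∀ u : Mat m, u.det ≠ 0 → ‖ip D (rt u F) F‖ = ‖ph κ mu u‖ := by
    intro u hu
    have hui : (u⁻¹).det ≠ 0 := by
      rw [Matrix.det_nonsing_inv, Ring.inverse_eq_inv']
      exact inv_ne_zero hu
    have h1 := hPHK m κ hm1 hκ N T D hS F lam mu hF hn u hu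
    have h2 := (hIPT m N T D hS F F lam lam hH hH).1
    have h3 := (hIPT m N T D hS (rt u F) F lam lam (h2 u hu).1 hH).1 u⁻¹ hui
    have h4 : ip D F (rt u⁻¹ F) = ip D (rt u F) F := by
      have := h3.2.2
      rwa [rt_inv hu] at this
    have h5 := (hIPT m N T D hS F (rt u⁻¹ F) lam lam hH (h2 u⁻¹ hui).1).2.2.2.1
    rw [← h4]
    have h6 : ‖ip D (rt u⁻¹ F) F‖ = ‖ip D F (rt u⁻¹ F)‖ := by
      rw [h5, Complex.norm_conj]
    rw [← h6, h1]
    rfl
  have hcont : ContinuousOn (fun u : V m => ip D (rt (mt u) F) F) {u | (mt u).det ≠ 0} := by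
    have h1 := (hIPT m N T D hS F F lam lam hH hH).2.2.2.2
    have h2 := h1.comp (f := fun u : V m => ((u, (fun i j => (1 : Mat m) i j)) : V m × V m))
      (s := {u | (mt u).det ≠ 0}) (by fun_prop) (fun u hu => ⟨hu, by
        change (1 : Mat m).det ≠ 0
        rw [Matrix.det_one]
        exact one_ne_zero⟩)
    refine h2.congr fun u _ => ?_
    change ip D (rt (mt u) F) F = ip D (rt (mt u) F) (rt (1 : Mat m) F)
    rw [rt_one]
  have hBc : IsCompact (Bn m (ρ / (2 * m))) := by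
    apply Metric.isCompact_of_isClosed_isBounded
    · exact isClosed_le (sz_cont.comp (mt_cont.sub continuous_const)) continuous_const
    · apply (Metric.isBounded_closedBall (x := ((fun i j => (1 : Mat m) i j) : V m))
        (r := ρ / (2 * m))).subset
      intro u hu
      rw [mem_closedBall_iff_norm]
      exact hu
  have hBint : IntegrableOn (fun u : V m => ‖ip D (rt (mt u) F) F‖ ^ 2) (Bn m (ρ / (2 * m))) := by
    refine ContinuousOn.integrableOn_compact hBc ?_
    exact ((hcont.mono fun u hu => hdet u hu).norm).pow 2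
  obtain ⟨g1, g2⟩ := mean_le hm1 mu hT.toTg (fun z => (hB z).2.1) hκ (A := A) hC1 hC2
    (fun w w' hw hw' => hJ mu hM hmono w w' hw hw') (fun w hw => hV mu hmono w hw)
  constructor
  · refine le_trans ?_ g2
    unfold Hn
    have h1 : ∫ u in Bn m (ρ / (2 * m)), ‖ip D (rt (mt u) F) F‖ ^ 2 =
        ∫ u in Bn m (ρ / (2 * m)), ‖bi m χ ρ (mt u)‖ * ‖ph κ mu (mt u)‖ ^ 2 := by
      refine setIntegral_congr_fun hBc.isClosed.measurableSet fun u hu => ?_
      change ‖ip D (rt (mt u) F) F‖ ^ 2 = ‖bi m χ ρ (mt u)‖ * ‖ph κ mu (mt u)‖ ^ 2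
      rw [hb1 u hu, hip _ (hdet u hu), norm_one, one_mul]
    rw [h1]
    exact setIntegral_le_integral g1 (Filter.Eventually.of_forall fun u => by positivity)
  · unfold Hn
    rw [setIntegral_pos_iff_support_of_nonneg_ae
      (Filter.Eventually.of_forall fun u => by positivity) hBint]
    have hop : IsOpen {u : V m | (mt u).det ≠ 0} := isOpen_ne.preimage (det_cont.comp mt_cont)
    have h1d : ((fun i j => (1 : Mat m) i j) : V m) ∈ {u : V m | (mt u).det ≠ 0} := by
      change (1 : Mat m).det ≠ 0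
      rw [Matrix.det_one]
      exact one_ne_zero
    have h2 := hcont.continuousAt (hop.mem_nhds h1d)
    have h3 : ip D (rt (mt ((fun i j => (1 : Mat m) i j) : V m)) F) F ≠ 0 := by
      change ip D (rt (1 : Mat m) F) F ≠ 0
      rw [rt_one, (hIPT m N T D hS F F lam lam hH hH).2.2.1, hn]
      norm_num
    have h4 := h2.eventually_ne h3
    have h5 : Bn m (ρ / (2 * m)) ∈ nhds ((fun i j => (1 : Mat m) i j) : V m) := by
      refine Filter.mem_of_superset (Metric.ball_mem_nhds _ hr) fun u hu => ?_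
      rw [mem_ball_iff_norm] at hu
      exact hu.le
    refine Measure.measure_pos_of_mem_nhds volume (x := ((fun i j => (1 : Mat m) i j) : V m)) ?_
    filter_upwards [h4, h5] with u hu1 hu2
    refine ⟨?_, hu2⟩
    rw [Function.mem_support]
    exact pow_ne_zero 2 (norm_ne_zero_iff.mpr hu1)

end Pool.Agent.H27.L1.H52.GHK
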